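import Mathlib

set_option autoImplicit false

namespace Pool.Agent.Results.MP_45c792_gt.CountableClosedLocallyCompact

open Set Topology

/-- From a family cushioned in a cover one gets an open neighbourhood assignment whose inverse
images of points lie in single members of the cover. -/
lemma neighbornet_of_cushioned {X : Type*} [TopologicalSpace X] (N : Set (Set X))
    (Φ : Set X → Set X)
    (hc : ∀ M ⊆ N, closure (⋃₀ M) ⊆ ⋃₀ (Φ '' M)) :
    ∃ V : X → Set X, (∀ x, IsOpen (V x)) ∧ (∀ x, x ∈ V x) ∧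
      ∀ S ∈ N, ∀ a ∈ S, ∀ x, a ∈ V x → x ∈ Φ S := by
  refine ⟨fun x => (closure (⋃₀ {S | S ∈ N ∧ x ∉ Φ S}))ᶜ, fun x => isClosed_closure.isOpen_compl,
    fun x hx => ?_, fun S hS a ha x hax => ?_⟩
  · have h := hc {S | S ∈ N ∧ x ∉ Φ S} (fun S hS => hS.1) hx
    obtain ⟨T, ⟨S, hS, rfl⟩, hxT⟩ := h
    exact hS.2 hxT
  · by_contra hx
    exact hax (subset_closure ⟨S, ⟨hS, hx⟩, ha⟩)

/-- The union of the sets `W y`, `y ∈ Y`. -/
def un {X : Type*} (W : X → Set X) (Y : Set X) : Set X := ⋃ y ∈ Y, W y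

lemma mem_un {X : Type*} {W : X → Set X} {Y : Set X} {x : X} :
    x ∈ un W Y ↔ ∃ y ∈ Y, x ∈ W y := by
  simp [un]

lemma un_mono {X : Type*} {W : X → Set X} {Y Z : Set X} (h : Y ⊆ Z) : un W Y ⊆ un W Z := by
  intro x hx
  obtain ⟨y, hy, hxy⟩ := mem_un.1 hx
  exact mem_un.2 ⟨y, h hy, hxy⟩

lemma isOpen_un {X : Type*} [TopologicalSpace X] {W : X → Set X} (hW : ∀ x, IsOpen (W x))
    (Y : Set X) : IsOpen (un W Y) :=
  isOpen_biUnion fun y _ => hW y

/-- Key selection lemma, inside a set `F`. -/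
lemma selection {X : Type*} [TopologicalSpace X] (F : Set X) (V : ℕ → X → Set X)
    (W : X → Set X) (m : X → ℕ) (K : X → Set X)
    (hVo : ∀ n x, IsOpen (V n x)) (hVm : ∀ n x, x ∈ V n x)
    (hanti : ∀ i j x, i ≤ j → V j x ⊆ V i x)
    (hWo : ∀ x, IsOpen (W x)) (hWm : ∀ x, x ∈ W x)
    (hK : ∀ a, IsCompact (K a)) (hKF : ∀ a, K a ⊆ F)
    (hVK : ∀ a, ∀ x ∈ F, a ∈ V (m a) x → x ∈ K a) :
    ∃ Y ⊆ F, F ⊆ un W Y ∧
      ∀ i, ∀ x ∈ F, ∃ O, IsOpen O ∧ x ∈ O ∧ (O ∩ {y | y ∈ Y ∧ m y ≤ i}).Finite := by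
  classical
  let P : Set X → Prop := fun Y => Y ⊆ F ∧ (∀ y ∈ Y, K y ⊆ un W Y) ∧
    ∀ i, ∀ x ∈ F, x ∈ un W Y → ∃ O, IsOpen O ∧ x ∈ O ∧ (O ∩ {y | y ∈ Y ∧ m y ≤ i}).Finite
  let r : {Y : Set X // P Y} → {Y : Set X // P Y} → Prop := fun A B =>
    A.1 ⊆ B.1 ∧ ∀ y ∈ B.1, y ∈ un W A.1 → y ∈ A.1
  have hout : ∀ Y : Set X, (∀ y ∈ Y, K y ⊆ un W Y) → ∀ i, ∀ x ∈ F, x ∉ un W Y →
      ∃ O, IsOpen O ∧ x ∈ O ∧ (O ∩ {y | y ∈ Y ∧ m y ≤ i}).Finite := by
    intro Y hY i x hxF hx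
    refine ⟨V i x, hVo i x, hVm i x, ?_⟩
    have : V i x ∩ {y | y ∈ Y ∧ m y ≤ i} = ∅ := by
      ext y
      simp only [mem_inter_iff, mem_empty_iff_false, iff_false]
      rintro ⟨hy, hyY, hmy⟩
      exact hx (hY y hyY (hVK y x hxF (hanti _ _ x hmy hy)))
    rw [this]
    exact finite_empty
  have htrans : ∀ {a b c}, r a b → r b c → r a c := by
    intro a b c hab hbc
    refine ⟨hab.1.trans hbc.1, fun y hy hya => ?_⟩
    exact hab.2 y (hbc.2 y hy (un_mono hab.1 hya)) hya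
  have hchain : ∀ c : Set {Y : Set X // P Y}, IsChain r c → ∃ ub, ∀ a ∈ c, r a ub := by
    intro c hc
    have hcmp : ∀ A ∈ c, ∀ B ∈ c, ∀ y ∈ B.1, y ∈ un W A.1 → y ∈ A.1 := by
      intro A hA B hB y hy hyA
      rcases eq_or_ne A B with h | h
      · rw [h]; exact hy
      · rcases hc hA hB h with h1 | h1
        · exact h1.2 y hy hyA
        · exact h1.1 hy
    let Z : Set X := ⋃ A ∈ c, A.1
    have hAZ : ∀ A ∈ c, A.1 ⊆ Z := fun A hA x hx => mem_biUnion hA hx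
    have hmemZ : ∀ y ∈ Z, ∃ A ∈ c, y ∈ A.1 := by
      intro y hy
      simpa [Z] using hy
    have hPZ : P Z := by
      refine ⟨fun y hy => ?_, fun y hy => ?_, fun i x hxF hx => ?_⟩
      · obtain ⟨A, hA, hyA⟩ := hmemZ y hy
        exact A.2.1 hyA
      · obtain ⟨A, hA, hyA⟩ := hmemZ y hy
        exact (A.2.2.1 y hyA).trans (un_mono (hAZ A hA))
      · obtain ⟨z, hz, hxz⟩ := mem_un.1 hx
        obtain ⟨A, hA, hzA⟩ := hmemZ z hz
        have hxA : x ∈ un W A.1 := mem_un.2 ⟨z, hzA, hxz⟩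
        obtain ⟨O, hO, hxO, hfin⟩ := A.2.2.2 i x hxF hxA
        refine ⟨O ∩ un W A.1, hO.inter (isOpen_un hWo _), ⟨hxO, hxA⟩, hfin.subset ?_⟩
        rintro y ⟨⟨hyO, hyA⟩, hyZ, hym⟩
        obtain ⟨B, hB, hyB⟩ := hmemZ y hyZ
        exact ⟨hyO, hcmp A hA B hB y hyB hyA, hym⟩
    refine ⟨⟨Z, hPZ⟩, fun A hA => ⟨hAZ A hA, fun y hy hyA => ?_⟩⟩
    obtain ⟨B, hB, hyB⟩ := hmemZ y hy
    exact hcmp A hA B hB y hyB hyA
  obtain ⟨⟨Y, hPY⟩, hmax⟩ := exists_maximal_of_chains_bounded hchain htrans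
  have hcov : F ⊆ un W Y := by
    by_contra hne
    obtain ⟨x₀, hx₀F, hx₀⟩ := not_subset.1 hne
    -- finite selection for compact sets
    have hsel : ∀ (E : Set X) (B : Set X), B.Finite →
        ∃ G : Set X, G.Finite ∧ G ⊆ (⋃ y ∈ B, K y) \ un W E ∧
          (⋃ y ∈ B, K y) \ un W E ⊆ un W G := by
      intro E B hB
      have hcomp : IsCompact ((⋃ y ∈ B, K y) \ un W E) :=
        (hB.isCompact_biUnion fun y _ => hK y).diff (isOpen_un hWo _)
      obtain ⟨t, ht, hfin, hsub⟩ := hcomp.elim_finite_subcover_image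
        (b := (⋃ y ∈ B, K y) \ un W E) (c := W) (fun y _ => hWo y)
        (fun y hy => mem_biUnion hy (hWm y))
      exact ⟨t, hfin, ht, hsub⟩
    choose! G hGfin hGsub hGcov using hsel
    -- sequence of pairs: everything chosen so far, and the last layer
    let s : ℕ → Set X × Set X := fun k => Nat.rec (Y ∪ {x₀}, {x₀})
      (fun _ p => (p.1 ∪ G p.1 p.2, G p.1 p.2)) k
    have hs1 : ∀ k, (s (k + 1)).1 = (s k).1 ∪ G (s k).1 (s k).2 := fun k => rfl
    have hs2 : ∀ k, (s (k + 1)).2 = G (s k).1 (s k).2 := fun k => rfl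
    have hs01 : (s 0).1 = Y ∪ {x₀} := rfl
    have hs02 : (s 0).2 = {x₀} := rfl
    have hfinF : ∀ k, (s k).2.Finite := by
      intro k
      induction k with
      | zero => rw [hs02]; exact finite_singleton _
      | succ k ih => rw [hs2]; exact hGfin _ _ ih
    have hGF : ∀ k, G (s k).1 (s k).2 ⊆ F := by
      intro k y hy
      obtain ⟨z, _, hyz⟩ := mem_iUnion₂.1 (hGsub _ _ (hfinF k) hy).1
      exact hKF z hyz
    have hsF : ∀ k, (s k).1 ⊆ F := by
      intro k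
      induction k with
      | zero =>
        rw [hs01]
        exact union_subset hPY.1 (singleton_subset_iff.2 hx₀F)
      | succ k ih => rw [hs1]; exact union_subset ih (hGF k)
    have hmono : ∀ k l, k ≤ l → (s k).1 ⊆ (s l).1 := by
      intro k l hkl
      induction l, hkl using Nat.le_induction with
      | base => exact subset_rfl
      | succ l _ ih => rw [hs1]; exact ih.trans subset_union_left
    have hlayer : ∀ k, ∀ y ∈ (s k).1, y ∈ Y ∨ ∃ j, j ≤ k ∧ y ∈ (s j).2 := by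
      intro k
      induction k with
      | zero =>
        intro y hy
        rw [hs01] at hy
        rcases hy with hy | hy
        · exact Or.inl hy
        · exact Or.inr ⟨0, le_rfl, by rw [hs02]; exact hy⟩
      | succ k ih =>
        intro y hy
        rw [hs1] at hy
        rcases hy with hy | hy
        · rcases ih y hy with h | ⟨j, hj, h⟩
          · exact Or.inl h
          · exact Or.inr ⟨j, hj.trans (Nat.le_succ k), h⟩
        · exact Or.inr ⟨k + 1, le_rfl, by rw [hs2]; exact hy⟩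
    -- later elements are outside the union of the earlier ones
    have hnew : ∀ k l, k ≤ l → ∀ y ∈ (s l).1, y ∈ un W (s k).1 → y ∈ (s k).1 := by
      intro k l hkl
      induction l, hkl using Nat.le_induction with
      | base => intro y hy _; exact hy
      | succ l hkl ih =>
        intro y hy hyk
        rw [hs1] at hy
        rcases hy with hy | hy
        · exact ih y hy hyk
        · exact absurd (un_mono (hmono k l hkl) hyk) (hGsub _ _ (hfinF l) hy).2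
    have hKk : ∀ k, ∀ y ∈ (s k).2, K y ⊆ un W (s (k + 1)).1 := by
      intro k y hy x hx
      by_cases hxE : x ∈ un W (s k).1
      · exact un_mono (hmono k (k + 1) (Nat.le_succ k)) hxE
      · have h1 : x ∈ (⋃ y ∈ (s k).2, K y) \ un W (s k).1 := ⟨mem_biUnion hy hx, hxE⟩
        have h2 := hGcov _ _ (hfinF k) h1
        rw [hs1]
        exact un_mono subset_union_right h2
    let Z : Set X := ⋃ k, (s k).1
    have hkZ : ∀ k, (s k).1 ⊆ Z := fun k => subset_iUnion (fun k => (s k).1) k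
    have hYs : ∀ k, Y ⊆ (s k).1 := by
      intro k
      refine Subset.trans ?_ (hmono 0 k (Nat.zero_le k))
      rw [hs01]; exact subset_union_left
    have hZnew : ∀ k, ∀ y ∈ Z, y ∈ un W (s k).1 → y ∈ (s k).1 := by
      intro k y hy hyk
      obtain ⟨l, hl⟩ := mem_iUnion.1 hy
      rcases le_total k l with h | h
      · exact hnew k l h y hl hyk
      · exact hmono l k h hl
    have hZY : ∀ y ∈ Z, y ∈ un W Y → y ∈ Y := by
      intro y hy hyY
      obtain ⟨l, hl⟩ := mem_iUnion.1 hy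
      rcases hlayer l y hl with h | ⟨j, hj, h⟩
      · exact h
      · exfalso
        cases j with
        | zero =>
          rw [hs02] at h
          rw [mem_singleton_iff.1 h] at hyY
          exact hx₀ hyY
        | succ j =>
          rw [hs2] at h
          exact (hGsub _ _ (hfinF j) h).2 (un_mono (hYs j) hyY)
    have hPZ : P Z := by
      refine ⟨iUnion_subset hsF, fun y hy => ?_, fun i x hxF hx => ?_⟩
      · obtain ⟨l, hl⟩ := mem_iUnion.1 hy
        rcases hlayer l y hl with h | ⟨j, hj, h⟩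
        · exact (hPY.2.1 y h).trans (un_mono ((hYs 0).trans (hkZ 0)))
        · exact (hKk j y h).trans (un_mono (hkZ (j + 1)))
      · obtain ⟨z, hz, hxz⟩ := mem_un.1 hx
        obtain ⟨k, hk⟩ := mem_iUnion.1 hz
        have hxk : x ∈ un W (s k).1 := mem_un.2 ⟨z, hk, hxz⟩
        have hYn : ∃ O, IsOpen O ∧ x ∈ O ∧ (O ∩ {y | y ∈ Y ∧ m y ≤ i}).Finite := by
          by_cases hxY : x ∈ un W Y
          · exact hPY.2.2 i x hxF hxY
          · exact hout Y hPY.2.1 i x hxF hxY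
        obtain ⟨O, hO, hxO, hfin⟩ := hYn
        have hfinE : (⋃ j ∈ Finset.range (k + 1), (s j).2).Finite :=
          Set.Finite.biUnion (Finset.finite_toSet _) fun j _ => hfinF j
        refine ⟨O ∩ un W (s k).1, hO.inter (isOpen_un hWo _), ⟨hxO, hxk⟩,
          (hfin.union hfinE).subset ?_⟩
        rintro y ⟨⟨hyO, hyk⟩, hyZ, hym⟩
        rcases hlayer k y (hZnew k y hyZ hyk) with h | ⟨j, hj, h⟩
        · exact Or.inl ⟨hyO, h, hym⟩
        · refine Or.inr (mem_biUnion (x := j) ?_ h)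
          simp only [Finset.coe_range, mem_Iio]
          omega
    have hx₀Z : x₀ ∈ Z := hkZ 0 (by rw [hs01]; exact Or.inr rfl)
    have hr : r ⟨Y, hPY⟩ ⟨Z, hPZ⟩ := ⟨(hYs 0).trans (hkZ 0), hZY⟩
    have hr' := hmax ⟨Z, hPZ⟩ hr
    exact hx₀ (mem_un.2 ⟨x₀, hr'.1 hx₀Z, hWm x₀⟩)
  exact ⟨Y, hPY.1, hcov, fun i x hxF => hPY.2.2 i x hxF (hcov hxF)⟩

/-- A set which is locally finite at the points of a compact set meets it in a finite set. -/
lemma finite_of_compact {X : Type*} [TopologicalSpace X] {S K : Set X} (hK : IsCompact K)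
    (h : ∀ x ∈ K, ∃ O, IsOpen O ∧ x ∈ O ∧ (O ∩ S).Finite) : (K ∩ S).Finite := by
  refine hK.induction_on (p := fun A => (A ∩ S).Finite) ?_ ?_ ?_ ?_
  · simp
  · exact fun s t hst ht => ht.subset (inter_subset_inter_left _ hst)
  · intro s t hs ht
    rw [union_inter_distrib_right]
    exact hs.union ht
  · intro x hx
    obtain ⟨O, hO, hxO, hfin⟩ := h x hx
    exact ⟨O, mem_nhdsWithin_of_mem_nhds (hO.mem_nhds hxO), hfin⟩

/-- The open sets whose trace on the closed set `F` lies in a compact subset of `F` cover the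
space when `F` is weakly locally compact. -/
lemma exists_trace {X : Type*} [TopologicalSpace X] (F : Set X) (hF : IsClosed F)
    (hloc : WeaklyLocallyCompactSpace F) (x : X) :
    ∃ U, IsOpen U ∧ x ∈ U ∧ ∃ L ⊆ F, IsCompact L ∧ U ∩ F ⊆ L := by
  by_cases hx : x ∈ F
  · obtain ⟨L, hL, hLx⟩ := exists_compact_mem_nhds (⟨x, hx⟩ : F)
    obtain ⟨U, hU, hUL⟩ := mem_nhds_subtype F ⟨x, hx⟩ L |>.1 hLx
    obtain ⟨O, hOU, hO, hxO⟩ := mem_nhds_iff.1 hU
    refine ⟨O, hO, hxO, Subtype.val '' L, ?_, hL.image continuous_subtype_val, ?_⟩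
    · rintro _ ⟨y, _, rfl⟩
      exact y.2
    · rintro y ⟨hyO, hyF⟩
      exact ⟨⟨y, hyF⟩, hUL (hOU hyO), rfl⟩
  · exact ⟨Fᶜ, hF.isOpen_compl, hx, ∅, empty_subset _, isCompact_empty, by simp⟩

/-- Suppose the space is the union of countably many closed subspaces which are weakly locally
compact (for instance, that it is itself weakly locally compact). If every directed open cover
has a cushioned refinement, then the space is metacompact. -/
theorem result :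
  ∀ (X : Type) [TopologicalSpace X],
    (∃ F : ℕ → Set X, (∀ i, IsClosed (F i)) ∧ (⋃ i, F i) = Set.univ ∧
      ∀ i, WeaklyLocallyCompactSpace (F i)) →
    (∀ C : Set (Set X), (∀ U ∈ C, IsOpen U) → ⋃₀ C = Set.univ → DirectedOn (· ⊆ ·) C →
      ∃ R : Set (Set X), ⋃₀ R = Set.univ ∧
        ∃ f : Set X → Set X, (∀ V ∈ R, f V ∈ C) ∧
          ∀ W ⊆ R, closure (⋃₀ W) ⊆ ⋃₀ (f '' W)) →
    ∀ C : Set (Set X), (∀ U ∈ C, IsOpen U) → ⋃₀ C = Set.univ →
      ∃ R : Set (Set X), (∀ V ∈ R, IsOpen V) ∧ ⋃₀ R = Set.univ ∧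
        (∀ V ∈ R, ∃ U ∈ C, V ⊆ U) ∧ ∀ x : X, {V ∈ R | x ∈ V}.Finite := by
  rintro X _ ⟨F, hFc, hFu, hFl⟩ hX C hCo hCc
  classical
  have hU : ∀ x, ∃ U ∈ C, x ∈ U := by
    intro x
    have hx : x ∈ ⋃₀ C := by rw [hCc]; exact mem_univ x
    obtain ⟨U, hU, hxU⟩ := hx
    exact ⟨U, hU, hxU⟩
  choose U hUC hxU using hU
  -- a point-finite family of open sets covering one closed set
  have key : ∀ A : Set X, IsClosed A → WeaklyLocallyCompactSpace A →
      ∃ H : Set (Set X), (∀ B ∈ H, IsOpen B ∧ ∃ U ∈ C, B ⊆ U) ∧ A ⊆ ⋃₀ H ∧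
        ∀ x, {B | B ∈ H ∧ x ∈ B}.Finite := by
    intro A hA hAl
    let D : Set (Set X) := {U | IsOpen U ∧ ∃ L ⊆ A, IsCompact L ∧ U ∩ A ⊆ L}
    have hDc : ⋃₀ D = univ := by
      refine eq_univ_of_forall fun x => ?_
      obtain ⟨U, hU, hxU, hL⟩ := exists_trace A hA hAl x
      exact ⟨U, ⟨hU, hL⟩, hxU⟩
    have hDd : DirectedOn (· ⊆ ·) D := by
      rintro B ⟨hB, L, hLA, hL, hBL⟩ B' ⟨hB', L', hLA', hL', hBL'⟩
      refine ⟨B ∪ B', ⟨hB.union hB', L ∪ L', union_subset hLA hLA', hL.union hL', ?_⟩,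
        subset_union_left, subset_union_right⟩
      rw [union_inter_distrib_right]
      exact union_subset_union hBL hBL'
    obtain ⟨N, hNc, Φ, hΦ, hcush⟩ := hX D (fun U hU => hU.1) hDc hDd
    obtain ⟨V, hVo, hVm, hV⟩ := neighbornet_of_cushioned N Φ hcush
    have hcomp : ∀ a, ∃ L ⊆ A, IsCompact L ∧ ∀ x ∈ A, a ∈ V x → x ∈ L := by
      intro a
      have ha : a ∈ ⋃₀ N := by rw [hNc]; exact mem_univ a
      obtain ⟨S, hS, haS⟩ := ha
      obtain ⟨_, L, hLA, hL, hΦL⟩ := hΦ S hS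
      exact ⟨L, hLA, hL, fun x hxA hx => hΦL ⟨hV S hS a haS x hx, hxA⟩⟩
    choose K hKA hK hVK using hcomp
    let W : X → Set X := fun x => V x ∩ U x
    have hWo : ∀ x, IsOpen (W x) := fun x => (hVo x).inter (hCo _ (hUC x))
    have hWm : ∀ x, x ∈ W x := fun x => ⟨hVm x, hxU x⟩
    obtain ⟨Y, hYA, hYc, hYf⟩ := selection A (fun _ => V) W (fun _ => 0) K (fun _ => hVo)
      (fun _ => hVm) (fun _ _ _ _ => subset_rfl) hWo hWm hK hKA hVK
    refine ⟨W '' Y, ?_, ?_, ?_⟩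
    · rintro _ ⟨y, hy, rfl⟩
      exact ⟨hWo y, U y, hUC y, inter_subset_right⟩
    · intro x hx
      obtain ⟨y, hy, hxy⟩ := mem_un.1 (hYc hx)
      exact ⟨W y, ⟨y, hy, rfl⟩, hxy⟩
    · intro x
      have hfin := finite_of_compact (S := Y) (hK x) (fun z hz => by
        obtain ⟨O, hO, hzO, hOf⟩ := hYf 0 z (hKA x hz)
        exact ⟨O, hO, hzO, hOf.subset fun y hy => ⟨hy.1, hy.2, le_rfl⟩⟩)
      refine (hfin.image W).subset ?_
      rintro _ ⟨⟨y, hy, rfl⟩, hx⟩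
      exact ⟨y, ⟨hVK x y (hYA hy) hx.1, hy⟩, rfl⟩
  choose H hH hHc hHf using fun i => key (F i) (hFc i) (hFl i)
  -- the increasing open cover by the unions of the first families
  let G : ℕ → Set X := fun n => ⋃ i ∈ Finset.range (n + 1), ⋃₀ (H i)
  have hGo : ∀ n, IsOpen (G n) := fun n =>
    isOpen_biUnion fun i _ => isOpen_sUnion fun B hB => (hH i B hB).1
  have hGmem : ∀ n x, x ∈ G n ↔ ∃ i, i ≤ n ∧ x ∈ ⋃₀ (H i) := by
    intro n x
    constructor
    · intro hx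
      obtain ⟨i, hi, hxi⟩ := mem_iUnion₂.1 hx
      exact ⟨i, by rw [Finset.mem_range] at hi; omega, hxi⟩
    · rintro ⟨i, hi, hxi⟩
      exact mem_iUnion₂.2 ⟨i, by rw [Finset.mem_range]; omega, hxi⟩
  have hGm : Monotone G := by
    intro n k hnk x hx
    obtain ⟨i, hi, hxi⟩ := (hGmem n x).1 hx
    exact (hGmem k x).2 ⟨i, hi.trans hnk, hxi⟩
  have hex : ∀ x, ∃ i, x ∈ ⋃₀ (H i) := by
    intro x
    have hx : x ∈ ⋃ i, F i := by rw [hFu]; exact mem_univ x
    obtain ⟨i, hi⟩ := mem_iUnion.1 hx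
    exact ⟨i, hHc i hi⟩
  have hGc : ⋃ i, G i = univ := by
    refine eq_univ_of_forall fun x => ?_
    obtain ⟨i, hi⟩ := hex x
    exact mem_iUnion.2 ⟨i, (hGmem i x).2 ⟨i, le_rfl, hi⟩⟩
  obtain ⟨N, hNc, Ψ, hΨ, hcush⟩ := hX (range G) (by rintro _ ⟨i, rfl⟩; exact hGo i)
    (by rw [sUnion_range]; exact hGc) (by
      rintro _ ⟨i, rfl⟩ _ ⟨j, rfl⟩
      exact ⟨G (max i j), ⟨_, rfl⟩, hGm (le_max_left i j), hGm (le_max_right i j)⟩)
  let T : ℕ → Set X := fun i => closure (⋃₀ {S | S ∈ N ∧ Ψ S ⊆ G i})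
  have hTG : ∀ i, T i ⊆ G i := by
    intro i
    refine (hcush _ fun S hS => hS.1).trans ?_
    rintro x ⟨_, ⟨S, hS, rfl⟩, hx⟩
    exact hS.2 hx
  have hTm : Monotone T := by
    intro i j hij
    exact closure_mono (sUnion_mono fun S hS => ⟨hS.1, hS.2.trans (hGm hij)⟩)
  have hTx : ∀ x, ∃ i, x ∈ T i := by
    intro x
    have hx : x ∈ ⋃₀ N := by rw [hNc]; exact mem_univ x
    obtain ⟨S, hS, hxS⟩ := hx
    obtain ⟨i, hi⟩ := hΨ S hS
    exact ⟨i, subset_closure ⟨S, ⟨hS, hi.ge⟩, hxS⟩⟩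
  -- the refinement
  let E : ℕ → Set X := fun n => ⋃ i ∈ Finset.range n, T i
  have hEc : ∀ n, IsClosed (E n) := fun n =>
    isClosed_biUnion_finset fun i _ => isClosed_closure
  refine ⟨⋃ n, (fun B => B \ E n) '' (H n), ?_, ?_, ?_, ?_⟩
  · intro B hB
    obtain ⟨n, B', hB', rfl⟩ := mem_iUnion.1 hB
    exact (hH n B' hB').1.sdiff (hEc n)
  · refine eq_univ_of_forall fun x => ?_
    obtain ⟨B, hB, hxB⟩ := Nat.find_spec (hex x)
    refine ⟨B \ E (Nat.find (hex x)), mem_iUnion.2 ⟨_, B, hB, rfl⟩, hxB, fun hxE => ?_⟩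
    obtain ⟨i, hi, hxi⟩ := mem_iUnion₂.1 hxE
    obtain ⟨j, hj, hxj⟩ := (hGmem i x).1 (hTG i hxi)
    rw [Finset.mem_range] at hi
    exact Nat.find_min (hex x) (lt_of_le_of_lt hj hi) hxj
  · intro B hB
    obtain ⟨n, B', hB', rfl⟩ := mem_iUnion.1 hB
    obtain ⟨U', hU', hBU⟩ := (hH n B' hB').2
    exact ⟨U', hU', sdiff_subset.trans hBU⟩
  · intro x
    obtain ⟨i, hi⟩ := hTx x
    have hfin : (⋃ n ∈ Finset.range (i + 1), (fun B => B \ E n) '' {B | B ∈ H n ∧ x ∈ B}).Finite :=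
      Set.Finite.biUnion (Finset.finite_toSet _) fun n _ => (hHf n x).image _
    refine hfin.subset ?_
    rintro B ⟨hB, hxB⟩
    obtain ⟨n, B', hB', rfl⟩ := mem_iUnion.1 hB
    refine mem_iUnion₂.2 ⟨n, ?_, B', ⟨hB', hxB.1⟩, rfl⟩
    rw [Finset.mem_range]
    by_contra hn
    exact hxB.2 (mem_iUnion₂.2 ⟨i, by rw [Finset.mem_range]; omega, hi⟩)

end Pool.Agent.Results.MP_45c792_gt.CountableClosedLocallyCompact
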